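import Pool.Agent.helper17.EXC.Spec

set_option autoImplicit false

open Finset

namespace Pool.Agent.EXC

variable {n : ℕ} (C : Matrix (Fin n) (Fin n) ℤ) {F : Type} [Field F] [IsC C]

theorem IMX_smul (a : Lm C F) (c t : F) (v : Lm C F) : xe C (c • a) t v = xe C a (c * t) v := by
  unfold xe
  rw [br_smul_left, fm_smul_left, smul_smul, smul_smul, mul_comm t c]
  congr 2
  ring

theorem IMX_smulX (a : Lm C F) (c t : F) (h : Lm C F ≃ₗ[F] Lm C F) : IsX C (c • a) t h ↔ IsX C a (c * t) h := by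
  unfold IsX
  exact forall_congr' fun v => by rw [IMX_smul]

theorem IMX_zero (a : Lm C F) (h : Lm C F ≃ₗ[F] Lm C F) (hh : IsX C a 0 h) : h = 1 := by
  apply LinearEquiv.ext
  intro v
  rw [hh v]
  simp [xe]

theorem IMX (hEXF : EXF_stmt) (hUNQ : UNQ_stmt) (hNBR : NBR_stmt) : IMX_stmt := by
  intro n C _ F _ j0 θ δ hE x hx
  obtain ⟨-, -, hEx, hRS⟩ := hEXF n C F (hNBR n C j0 θ δ hE).1
  have hU := hUNQ n C F j0 θ δ hE
  refine ⟨?_, ?_, ?_, ?_⟩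
  · intro a ha
    obtain ⟨-, -, -, -, hex, -, -, -, hadd⟩ := hEx a ha
    let A : Subgroup (EG C F) :=
      { carrier := {h | ∃ t, IsX C a t (h : Lm C F ≃ₗ[F] Lm C F)}
        mul_mem' := by
          rintro g h ⟨s, hs⟩ ⟨t, ht⟩
          exact ⟨s + t, hadd s t _ _ hs ht⟩
        one_mem' := ⟨0, fun v => by simp [xe]⟩
        inv_mem' := by
          rintro g ⟨s, hs⟩
          obtain ⟨h, -, hh⟩ := hex (-s)
          have h1 := hadd s (-s) _ _ hs hh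
          rw [add_neg_cancel] at h1
          have h2 := IMX_zero C a _ h1
          have h3 : h = ((g⁻¹ : EG C F) : Lm C F ≃ₗ[F] Lm C F) := by
            rw [Subgroup.coe_inv]
            exact (inv_eq_of_mul_eq_one_right h2).symm
          exact ⟨-s, h3 ▸ hh⟩ }
    have hA : ∀ h : EG C F, h ∈ A ↔ ∃ t, IsX C a t (h : Lm C F ≃ₗ[F] Lm C F) := fun h => Iff.rfl
    have hAr : IsRS C A := (hRS A).2 ⟨a, ha, hA⟩
    obtain ⟨b, hb, hb'⟩ := (hRS _).1 (hx A hAr)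
    refine ⟨b, hb, fun h => ?_⟩
    rw [← hA h, ← hb' (x h)]
    constructor
    · intro h1
      exact Subgroup.mem_map.2 ⟨h, h1, rfl⟩
    · intro h1
      obtain ⟨h', h2, h3⟩ := Subgroup.mem_map.1 h1
      have h4 : h' = h := x.injective h3
      rwa [← h4]
  · intro a a' b ha ha' _ h1 h2
    obtain ⟨-, hne, -, -, hex, -⟩ := hEx a' ha'
    obtain ⟨h, hh, hh1⟩ := hex 1
    obtain ⟨t, ht⟩ := (h1 ⟨h, hh⟩).2 ((h2 ⟨h, hh⟩).1 ⟨1, hh1⟩)
    have h5 := hU a' a t h ha' ha hh1 ht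
    refine ⟨t, ?_, h5⟩
    rintro rfl
    exact hne (by rw [h5, zero_smul])
  · intro a b b' _ hb hb' h1 h2
    obtain ⟨-, hne, -, -, hex, -⟩ := hEx b' hb'
    obtain ⟨h, hh, hh1⟩ := hex 1
    have e : x (x.symm ⟨h, hh⟩) = (⟨h, hh⟩ : EG C F) := x.apply_symm_apply _
    have h3 : ∃ t, IsX C b' t ((x (x.symm ⟨h, hh⟩) : EG C F) : Lm C F ≃ₗ[F] Lm C F) := by
      rw [e]
      exact ⟨1, hh1⟩
    obtain ⟨t, ht⟩ := (h1 (x.symm ⟨h, hh⟩)).1 ((h2 (x.symm ⟨h, hh⟩)).2 h3)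
    rw [e] at ht
    have h5 := hU b' b t h hb' hb hh1 ht
    refine ⟨t, ?_, h5⟩
    rintro rfl
    exact hne (by rw [h5, zero_smul])
  · intro a b c c' _ _ hc hc' h1 h
    have key : ∀ (a : Lm C F) (c : F), c ≠ 0 → ∀ h : Lm C F ≃ₗ[F] Lm C F, (∃ t, IsX C (c • a) t h) ↔ ∃ t, IsX C a t h := by
      intro a c hc h
      constructor
      · rintro ⟨t, ht⟩
        exact ⟨c * t, (IMX_smulX C a c t h).1 ht⟩
      · rintro ⟨t, ht⟩
        refine ⟨c⁻¹ * t, (IMX_smulX C a c _ h).2 ?_⟩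
        rwa [mul_inv_cancel_left₀ hc]
    rw [key a c hc, key b c' hc']
    exact h1 h

end Pool.Agent.EXC
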